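import Pool.Agent.Helper2_CN3.Stmts
import Pool.Agent.Helper39_CON.Cng

set_option autoImplicit false

/-!
# Squad CN3, modules Q_PCS and Q_NUN
-/

noncomputable section

namespace Pool.Agent.CN3.H39

open Pool.Agent.H25Cong Pool.Agent.CON Pool.Agent.CN2 Pool.Agent.CN3

/-- finite index from a map to a finite set -/
theorem relIndex_ne_zero_of_finite {G α : Type*} [Group G] [Finite α] (H K : Subgroup G)
    (f : G → α) (hf : ∀ a ∈ K, ∀ b ∈ K, f a = f b → a⁻¹ * b ∈ H) : H.relIndex K ≠ 0 := by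
  have hfin : Finite (K ⧸ H.subgroupOf K) := by
    apply Finite.of_injective (fun q : K ⧸ H.subgroupOf K => f (q.out : K))
    intro q q' h
    have h1 := hf _ q.out.2 _ q'.out.2 h
    rw [← Quotient.out_eq q, ← Quotient.out_eq q']
    apply QuotientGroup.eq.2
    rw [Subgroup.mem_subgroupOf]
    exact h1
  rw [Subgroup.relIndex]
  exact Subgroup.index_ne_zero_of_finite

theorem q_pcs : Q_PCS := by
  intro n L N H hL hN hH
  obtain ⟨b, hb⟩ := hL
  have : NeZero N := ⟨hN.ne'⟩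
  have hint : ∀ y ∈ L, ∀ j, ((⌊b.repr y j⌋ : ℤ) : ℝ) = b.repr y j := by
    intro y hy j
    rw [hb] at hy
    obtain ⟨k, hk⟩ := (b.mem_span_iff_repr_mem ℤ y).mp hy j
    rw [← hk]
    simp
  apply relIndex_ne_zero_of_finite H (OLat L)
    (fun g => (fun i j => ((⌊b.repr (g (b i)) j⌋ : ℤ) : ZMod N) :
      Fin (n + 1) → Fin (n + 1) → ZMod N))
  intro g hg h hh hgh
  have hbL : ∀ i, b i ∈ L := fun i => by
    rw [hb]
    exact Submodule.subset_span ⟨i, rfl⟩
  have hcast : ∀ (c : ℤ) (x : V n), (c : ℝ) • x = c • x := fun c x =>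
    Int.cast_smul_eq_zsmul ℝ c x
  have key : ∀ x ∈ L, ∃ y ∈ L, h x - g x = (N : ℝ) • y := by
    intro x hx
    rw [hb] at hx
    induction hx using Submodule.span_induction with
    | mem x hx =>
      obtain ⟨i, rfl⟩ := hx
      have h1 : ∀ j, ∃ k : ℤ, ⌊b.repr (h (b i)) j⌋ - ⌊b.repr (g (b i)) j⌋ = N * k := by
        intro j
        have h2 := congrFun (congrFun hgh i) j
        have h3 := (ZMod.intCast_eq_intCast_iff_dvd_sub _ _ _).1 h2
        exact h3
      choose k hk using h1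
      refine ⟨∑ j, k j • b j, Submodule.sum_mem _ fun j _ => Submodule.smul_mem _ _ (hbL j), ?_⟩
      apply b.repr.injective
      ext j
      rw [map_sub, Finsupp.sub_apply, map_smul, Finsupp.smul_apply, map_sum]
      have h4 : (∑ x, b.repr (k x • b x)) j = k j := by
        rw [Finsupp.finsetSum_apply, Finset.sum_eq_single j]
        · rw [← hcast, map_smul, Finsupp.smul_apply, b.repr_self, Finsupp.single_eq_same]
          simp
        · intro x _ hx
          rw [← hcast, map_smul, Finsupp.smul_apply, b.repr_self, Finsupp.single_eq_of_ne hx.symm]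
          simp
        · intro hx
          exact absurd (Finset.mem_univ _) hx
      rw [h4, ← hint _ ((hh.2 _).2 (hbL i)) j, ← hint _ ((hg.2 _).2 (hbL i)) j]
      have h5 := hk j
      have h6 : ((⌊b.repr (h (b i)) j⌋ - ⌊b.repr (g (b i)) j⌋ : ℤ) : ℝ) = ((N * k j : ℤ) : ℝ) := by
        rw [h5]
      push_cast at h6
      rw [smul_eq_mul]
      exact h6
    | zero => exact ⟨0, L.zero_mem, by simp⟩
    | add x y _ _ hx hy =>
      obtain ⟨u, hu, e1⟩ := hx
      obtain ⟨v, hv, e2⟩ := hy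
      refine ⟨u + v, L.add_mem hu hv, ?_⟩
      rw [map_add, map_add, smul_add, ← e1, ← e2]
      abel
    | smul c x _ hx =>
      obtain ⟨u, hu, e1⟩ := hx
      refine ⟨c • u, L.smul_mem c hu, ?_⟩
      rw [← hcast, ← hcast, map_smul, map_smul, ← smul_sub, e1, smul_comm]
  have hgi := IsAut.inv hg
  apply hH
  · exact (OLat L).mul_mem ((OLat L).inv_mem hg) hh
  · intro x hx
    obtain ⟨y, hy, e⟩ := key x hx
    refine ⟨g⁻¹ y, (hgi.2 y).2 hy, ?_⟩
    rw [← map_smul, ← e, map_sub, inv_ap, mul_ap]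

/-- the coordinates of an isotropic vector -/
theorem iso_coord {n : ℕ} {y : V n} (h : B y y = 0) (j : Fin (n + 1)) : |y j| ≤ |y 0| := by
  apply sq_le_sq.1
  rcases eq_or_ne j 0 with rfl | hj
  · exact le_rfl
  have h1 : ∑ i, y i * y i = 2 * (y 0 * y 0) := by
    have : B y y = (∑ i, y i * y i) - 2 * (y 0 * y 0) := rfl
    rw [h] at this
    linarith
  have h2 : ∑ i ∈ ({j, 0} : Finset (Fin (n + 1))), y i * y i ≤ ∑ i, y i * y i :=
    Finset.sum_le_sum_of_subset_of_nonneg (Finset.subset_univ _) fun i _ _ => mul_self_nonneg _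
  rw [Finset.sum_pair hj, h1] at h2
  nlinarith

/-- isotropic vectors of a lattice are not short -/
theorem iso_lower {n : ℕ} {L : Submodule ℤ (V n)} (hL : IsLat L) :
    ∃ δ : ℝ, 0 < δ ∧ ∀ y ∈ L, y ≠ 0 → B y y = 0 → δ ≤ |y 0| := by
  obtain ⟨b, hb⟩ := hL
  let C : ℝ := (∑ i, ∑ j, |b.repr (Pi.single j (1 : ℝ)) i|) + 1
  have hC0 : 0 ≤ ∑ i, ∑ j, |b.repr (Pi.single j (1 : ℝ)) i| :=
    Finset.sum_nonneg fun i _ => Finset.sum_nonneg fun j _ => abs_nonneg _
  have hC : 0 < C := by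
    show 0 < (∑ i, ∑ j, |b.repr (Pi.single j (1 : ℝ)) i|) + 1
    linarith
  refine ⟨1 / C, by positivity, fun y hy hne hyy => ?_⟩
  rw [div_le_iff₀ hC]
  have h1 : ∃ i, b.repr y i ≠ 0 := by
    by_contra hall
    push Not at hall
    apply hne
    apply b.repr.injective
    ext i
    rw [hall i, map_zero]
    rfl
  obtain ⟨i, hi⟩ := h1
  have h2 : 1 ≤ |b.repr y i| := by
    rw [hb] at hy
    obtain ⟨k, hk⟩ := (b.mem_span_iff_repr_mem ℤ y).mp hy i
    rw [← hk] at hi ⊢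
    simp only [eq_intCast] at hi ⊢
    have hk0 : k ≠ 0 := by
      rintro rfl
      simp at hi
    have := Int.one_le_abs hk0
    exact_mod_cast this
  have h3 : y = ∑ j, y j • (Pi.single j (1 : ℝ) : V n) := by
    ext j
    rw [Finset.sum_apply, Finset.sum_eq_single j]
    · simp
    · intro x _ hx
      simp [Pi.single_eq_of_ne hx.symm]
    · intro hx
      exact absurd (Finset.mem_univ _) hx
  have h4 : b.repr y i = ∑ j, y j * b.repr (Pi.single j (1 : ℝ)) i := by
    conv_lhs => rw [h3]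
    rw [map_sum, Finsupp.finsetSum_apply]
    refine Finset.sum_congr rfl fun j _ => ?_
    rw [map_smul, Finsupp.smul_apply, smul_eq_mul]
  have h5 : |b.repr y i| ≤ |y 0| * ∑ j, |b.repr (Pi.single j (1 : ℝ)) i| := by
    rw [h4, Finset.mul_sum]
    refine (Finset.abs_sum_le_sum_abs _ _).trans (Finset.sum_le_sum fun j _ => ?_)
    rw [abs_mul]
    exact mul_le_mul_of_nonneg_right (iso_coord hyy j) (abs_nonneg _)
  have h6 : ∑ j, |b.repr (Pi.single j (1 : ℝ)) i| ≤ C := by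
    show _ ≤ (∑ i, ∑ j, |b.repr (Pi.single j (1 : ℝ)) i|) + 1
    have := Finset.single_le_sum (f := fun i => ∑ j, |b.repr (Pi.single j (1 : ℝ)) i|)
      (fun i _ => Finset.sum_nonneg fun j _ => abs_nonneg _) (Finset.mem_univ i)
    linarith
  calc 1 ≤ |b.repr y i| := h2
    _ ≤ _ := h5
    _ ≤ |y 0| * C := mul_le_mul_of_nonneg_left h6 (abs_nonneg _)

/-- the product of a bounded point of hyperbolic space with an isotropic vector -/
theorem pair_lower {n : ℕ} {v y : V n} {R ε : ℝ} (hv : B v v = -1) (hy : B y y = 0)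
    (hR : |v 0| ≤ R) (hε : |B v y| ≤ ε) : |y 0| ≤ 2 * R * ε := by
  have hR0 : 0 ≤ R := (abs_nonneg _).trans hR
  have hε0 : 0 ≤ ε := (abs_nonneg _).trans hε
  let s : Finset (Fin (n + 1)) := Finset.univ.erase 0
  have hs : ∀ f : Fin (n + 1) → ℝ, ∑ i, f i = f 0 + ∑ i ∈ s, f i := fun f =>
    (Finset.add_sum_erase _ f (Finset.mem_univ 0)).symm
  have e1 : B v v = (∑ i ∈ s, v i ^ 2) - v 0 ^ 2 := by
    show (∑ i, v i * v i) - 2 * (v 0 * v 0) = _
    rw [hs]
    simp only [sq]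
    ring
  have e2 : B y y = (∑ i ∈ s, y i ^ 2) - y 0 ^ 2 := by
    show (∑ i, y i * y i) - 2 * (y 0 * y 0) = _
    rw [hs]
    simp only [sq]
    ring
  have e3 : B v y = (∑ i ∈ s, v i * y i) - v 0 * y 0 := by
    show (∑ i, v i * y i) - 2 * (v 0 * y 0) = _
    rw [hs]
    ring
  have hcs := Finset.sum_mul_sq_le_sq_mul_sq s v y
  set P := ∑ i ∈ s, v i * y i
  have f1 : ∑ i ∈ s, v i ^ 2 = v 0 ^ 2 - 1 := by linarith
  have f2 : ∑ i ∈ s, y i ^ 2 = y 0 ^ 2 := by linarith
  rw [f1, f2] at hcs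
  rw [e3] at hε
  -- y0 ^ 2 ≤ (Q - P) (Q + P)
  have h1 : y 0 ^ 2 ≤ (v 0 * y 0 - P) * (v 0 * y 0 + P) := by nlinarith
  have h2 : |P| ≤ |v 0 * y 0| := by
    apply sq_le_sq.1
    nlinarith [sq_nonneg (y 0)]
  have h3 : |v 0 * y 0| ≤ R * |y 0| := by
    rw [abs_mul]
    exact mul_le_mul_of_nonneg_right hR (abs_nonneg _)
  have h4 : (v 0 * y 0 - P) * (v 0 * y 0 + P) ≤ ε * (2 * (R * |y 0|)) := by
    calc _ ≤ |(v 0 * y 0 - P) * (v 0 * y 0 + P)| := le_abs_self _
      _ = |P - v 0 * y 0| * |v 0 * y 0 + P| := by rw [abs_mul, abs_sub_comm]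
      _ ≤ ε * (2 * (R * |y 0|)) := by
        apply mul_le_mul hε _ (abs_nonneg _) hε0
        calc |v 0 * y 0 + P| ≤ |v 0 * y 0| + |P| := abs_add_le _ _
          _ ≤ _ := by linarith
  have h5 : |y 0| ^ 2 ≤ (2 * R * ε) * |y 0| := by
    rw [sq_abs]
    linarith
  rcases eq_or_lt_of_le (abs_nonneg (y 0)) with h0 | h0
  · rw [← h0]
    positivity
  · nlinarith

theorem q_nun : Q_NUN := by
  intro n Γ L hL hInv hIso he hU
  obtain ⟨e, heL, hne, hee⟩ := he
  obtain ⟨R, hR⟩ := hU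
  obtain ⟨δ, hδ, hδ'⟩ := iso_lower hL
  have he0 : e 0 ≠ 0 := by
    intro h0
    apply hne
    ext j
    have := iso_coord hee j
    rw [h0, abs_zero] at this
    simpa using le_antisymm this (abs_nonneg _)
  let f : V n := fun i => if i = 0 then e 0 else - e i
  let s : Finset (Fin (n + 1)) := Finset.univ.erase 0
  have hs : ∀ g : Fin (n + 1) → ℝ, ∑ i, g i = g 0 + ∑ i ∈ s, g i := fun g =>
    (Finset.add_sum_erase _ g (Finset.mem_univ 0)).symm
  have e2 : ∑ i ∈ s, e i * e i = e 0 * e 0 := by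
    have : B e e = (∑ i, e i * e i) - 2 * (e 0 * e 0) := rfl
    rw [hee, hs] at this
    linarith
  have hf0 : f 0 = e 0 := if_pos rfl
  have hfi : ∀ i ∈ s, f i = - e i := fun i hi => if_neg (Finset.ne_of_mem_erase hi)
  have hff : B f f = 0 := by
    show (∑ i, f i * f i) - 2 * (f 0 * f 0) = 0
    rw [hs, hf0, Finset.sum_congr rfl fun i hi => by rw [hfi i hi, neg_mul_neg], e2]
    ring
  have hef : B e f = - (2 * e 0 ^ 2) := by
    show (∑ i, e i * f i) - 2 * (e 0 * f 0) = _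
    rw [hs, hf0, Finset.sum_congr rfl fun i hi => by rw [hfi i hi, mul_neg],
      Finset.sum_neg_distrib, e2]
    ring
  have hsq : 0 < e 0 ^ 2 := by positivity
  have hR1 : 0 < |R| + 1 := by positivity
  let c : ℝ := δ / (8 * (|R| + 1) * e 0 ^ 2)
  have hc : 0 < c := by
    show 0 < δ / (8 * (|R| + 1) * e 0 ^ 2)
    positivity
  have hcv : 2 * c * e 0 ^ 2 = δ / (4 * (|R| + 1)) := by
    show 2 * (δ / (8 * (|R| + 1) * e 0 ^ 2)) * e 0 ^ 2 = _
    field_simp
    ring
  let v : V n := (1 / (4 * e 0 ^ 2 * c)) • e + c • f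
  have hvv : B v v = -1 := by
    show B ((1 / (4 * e 0 ^ 2 * c)) • e + c • f) ((1 / (4 * e 0 ^ 2 * c)) • e + c • f) = -1
    simp only [B_add_left, B_add_right, B_smul_left, B_smul_right]
    rw [hee, hff, B_comm f e, hef]
    field_simp
    ring
  have hve : B v e = - (2 * c * e 0 ^ 2) := by
    show B ((1 / (4 * e 0 ^ 2 * c)) • e + c • f) e = _
    rw [B_add_left, B_smul_left, B_smul_left, hee, B_comm f e, hef]
    ring
  obtain ⟨γ, hγ, hb⟩ := hR v hvv
  have hi := hIso γ hγ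
  have hyL := hInv γ hγ e heL
  have hy0 : γ e ≠ 0 := by
    intro h0
    apply hne
    apply γ.injective
    rw [h0, map_zero]
  have hyy : B (γ e) (γ e) = 0 := by rw [hi, hee]
  have h1 := hδ' _ hyL hy0 hyy
  have h2 : |B (γ v) (γ e)| ≤ δ / (4 * (|R| + 1)) := by
    rw [hi, hve, abs_neg, abs_of_pos (by positivity), hcv]
  have h3 := pair_lower (by rw [hi, hvv]) hyy (hb 0) h2
  have h4 : 2 * R * (δ / (4 * (|R| + 1))) < δ := by
    have h5 : R ≤ |R| := le_abs_self R
    rw [← mul_div_assoc, div_lt_iff₀ (by positivity)]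
    nlinarith
  linarith

end Pool.Agent.CN3.H39

end
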