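import Pool.Agent.Helper25_CN3.Stmts

set_option autoImplicit false

/-!
# Squad CN3, modules P_PRM and O_DIV
-/

noncomputable section

namespace Pool.Agent.CN3.H39

open Pool.Agent.H25Cong Pool.Agent.CON Pool.Agent.CN2 Pool.Agent.CN3

theorem dot_range (u v : List ℤ) (m : ℕ) (h : u.length ≤ m) :
    dot u v = ∑ i ∈ Finset.range m, u.getD i 0 * v.getD i 0 := by
  induction u generalizing v m with
  | nil =>
    symm
    apply Finset.sum_eq_zero
    intro i _
    simp
  | cons x u ih =>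
    rcases v with _ | ⟨y, v⟩
    · symm
      apply Finset.sum_eq_zero
      intro i _
      simp
    · obtain ⟨m, rfl⟩ : ∃ k, m = k + 1 := by
        cases m with
        | zero => simp at h
        | succ k => exact ⟨k, rfl⟩
      rw [Finset.sum_range_succ']
      have h1 : dot (x :: u) (y :: v) = x * y + dot u v := by
        simp [dot]
      rw [h1, ih v m (by simpa using h), add_comm]
      simp

theorem dot_dvd (d : ℤ) (u v : List ℤ) (h : ∀ z ∈ v, d ∣ z) : d ∣ dot u v := by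
  induction u generalizing v with
  | nil => simp [dot]
  | cons x u ih =>
    rcases v with _ | ⟨y, v⟩
    · simp [dot]
    · have h1 : dot (x :: u) (y :: v) = x * y + dot u v := by
        simp [dot]
      rw [h1]
      exact dvd_add (Dvd.dvd.mul_left (h y (by simp)) x) (ih v fun z hz => h z (by simp [hz]))

variable {n : ℕ}

theorem av_eq (a : Module.Basis (Fin (n + 1)) ℝ (V n)) {k : ℕ} (h : k < n + 1) :
    av a k = a ⟨k, h⟩ := dif_pos h

theorem av_mem (a : Module.Basis (Fin (n + 1)) ℝ (V n)) {k : ℕ} (h : k < n + 1) :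
    av a k ∈ LL a := by
  rw [av_eq a h]
  exact Submodule.subset_span ⟨_, rfl⟩

theorem repr_lv (a : Module.Basis (Fin (n + 1)) ℝ (V n)) (x : List ℤ) (i : Fin (n + 1)) :
    a.repr (lv a x) i = ((x.getD i 0 : ℤ) : ℝ) := by
  unfold lv
  rw [map_sum, Finsupp.finsetSum_apply, Finset.sum_eq_single i]
  · rw [map_smul, Finsupp.smul_apply, a.repr_self, Finsupp.single_eq_same, smul_eq_mul, mul_one]
  · intro j _ hj
    rw [map_smul, Finsupp.smul_apply, a.repr_self, Finsupp.single_eq_of_ne hj.symm, smul_zero]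
  · intro h
    exact absurd (Finset.mem_univ _) h

theorem length_eq {m : ℕ} {G : List (List ℤ)} (h : symB m G = true) : G.length = m := by
  unfold symB at h
  simp only [Bool.and_eq_true, decide_eq_true_eq] at h
  exact h.1.1.1

theorem p_prm (_ : V_MEM) (_ : V_IP) : P_PRM := by
  intro n a G A u g t hB hN hg ht
  have hG := length_eq hB.sym
  unfold nullB at hN
  simp only [Bool.and_eq_true, decide_eq_true_eq] at hN
  obtain ⟨⟨⟨⟨⟨⟨⟨_, _⟩, _⟩, hε⟩, hb⟩, hd⟩, _⟩, _⟩ := hN
  have h0 : (0 : ℕ) < n + 1 := Nat.succ_pos n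
  have hint : ∀ v ∈ LL a, ∀ i, ∃ k : ℤ, a.repr v i = k := by
    intro v hv i
    obtain ⟨k, hk⟩ := (a.mem_span_iff_repr_mem ℤ v).mp hv i
    exact ⟨k, by rw [← hk]; simp⟩
  have h1 : ∀ i : Fin (n + 1), ∃ k : ℤ, t * ((u.ε.getD i 0 : ℤ) : ℝ) = k := by
    intro i
    obtain ⟨k, hk⟩ := hint _ ((hg.2 _).2 (av_mem a h0)) i
    refine ⟨k, ?_⟩
    rw [← hk, ht, map_smul, Finsupp.smul_apply, repr_lv, smul_eq_mul]
  choose k hk using h1
  have h2 : t = ((∑ i : Fin (n + 1), u.b.getD i 0 * k i : ℤ) : ℝ) := by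
    push_cast
    have h3 : dot u.b u.ε = ∑ i : Fin (n + 1), u.b.getD i 0 * u.ε.getD i 0 := by
      rw [dot_range u.b u.ε (n + 1) (by omega), Finset.sum_range]
    rw [h3] at hd
    have h4 : (1 : ℝ) = ∑ i : Fin (n + 1), ((u.b.getD i 0 : ℤ) : ℝ) * ((u.ε.getD i 0 : ℤ) : ℝ) := by
      have := congrArg (fun z : ℤ => (z : ℝ)) hd
      push_cast at this
      exact this.symm
    calc t = t * 1 := (mul_one t).symm
      _ = ∑ i : Fin (n + 1), ((u.b.getD i 0 : ℤ) : ℝ) * k i := by
        rw [h4, Finset.mul_sum]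
        refine Finset.sum_congr rfl fun i _ => ?_
        rw [← hk]
        ring
  have hne : t ≠ 0 := by
    rintro rfl
    rw [zero_smul, ← map_zero g] at ht
    have := g.injective ht
    rw [av_eq a h0] at this
    exact a.ne_zero _ this
  have h5 : lv a u.ε ∈ LL a := by
    unfold lv
    refine Submodule.sum_mem _ fun i _ => ?_
    rw [Int.cast_smul_eq_zsmul ℝ]
    exact Submodule.smul_mem _ _ (Submodule.subset_span ⟨_, rfl⟩)
  have hgi := IsAut.inv hg
  have h6 : g⁻¹ (lv a u.ε) = t⁻¹ • av a 0 := by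
    apply g.injective
    rw [ap_inv, map_smul, ht, smul_smul, inv_mul_cancel₀ hne, one_smul]
  obtain ⟨l, hl⟩ := hint _ ((hgi.2 _).2 h5) ⟨0, h0⟩
  rw [h6, av_eq a h0, map_smul, Finsupp.smul_apply, a.repr_self, Finsupp.single_eq_same,
    smul_eq_mul, mul_one] at hl
  set s : ℤ := ∑ i : Fin (n + 1), u.b.getD i 0 * k i
  have h7 : s * l = 1 := by
    have : (s : ℝ) * l = 1 := by
      rw [← h2, ← hl, mul_inv_cancel₀ hne]
    exact_mod_cast this
  rcases Int.eq_one_or_neg_one_of_mul_eq_one h7 with h8 | h8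
  · left
    rw [h2, h8]
    simp
  · right
    rw [h2, h8]
    simp

theorem o_div (h1 : V_IP) (h2 : V_MEM) (h3 : V_HYP) : O_DIV := by
  intro n a G ε g hB hH hall hg hor
  obtain ⟨hn, _, _, h01, _, _⟩ := h3 n a G hB hH
  have hm : g (av a 1) ∈ LL a := (hg.2 _).2 (av_mem a (by omega))
  obtain ⟨y, _, hy⟩ := (h2 n a).2.1 _ hm
  have h4 : B (g (av a 0)) (g (av a 1)) = -1 := by rw [hg.1, h01]
  have h5 : (2 : ℤ) ∣ gip G y ε := by
    unfold gip
    apply dot_dvd
    intro z hz
    rw [List.mem_map] at hz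
    obtain ⟨r, hr, rfl⟩ := hz
    rw [List.all_eq_true] at hall
    simpa using hall r hr
  obtain ⟨k, hk⟩ := h5
  have h6 : B (lv a ε) (g (av a 1)) = ((2 * k : ℤ) : ℝ) := by
    rw [hy, B_comm, h1 n a G hB, hk]
  rcases hor with h | h
  · rw [h, h6] at h4
    have : 2 * k = -1 := by exact_mod_cast h4
    omega
  · rw [h, B_neg_left, h6] at h4
    have : -(2 * k) = -1 := by exact_mod_cast h4
    omega

end Pool.Agent.CN3.H39

end
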